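import Pool.Agent.Helper37.SU.Stmts

open Finset

namespace Pool.Agent.Helper37.SU

theorem DKS_sum (b : ℕ) (k : ℤ) (J : ℕ) :
    ∑ i ∈ range (J + 2), dkc b i k = om ((k : ℝ) / (b : ℝ) ^ J) := by
  induction J with
  | zero =>
    rw [Finset.sum_range_succ, Finset.sum_range_succ, Finset.sum_range_zero]
    simp [dkc]
  | succ J ih =>
    rw [Finset.sum_range_succ, ih]
    have h1 : dkc b (J + 2) k = om ((k : ℝ) / (b : ℝ) ^ (J + 1)) - om ((k : ℝ) / (b : ℝ) ^ J) := by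
      unfold dkc
      rw [if_neg (by omega), if_neg (by omega)]
      rfl
    rw [h1]; ring

theorem DKS_small (hO : ST_OM) (b : ℕ) (k : ℤ) (i : ℕ) (hb : 2 ≤ b)
    (h : 4 * |k| ≤ (b : ℤ) ^ i) : om ((k : ℝ) / (b : ℝ) ^ i) = 1 := by
  refine hO.2.1 _ ?_
  have hb0 : (0 : ℝ) < (b : ℝ) ^ i := by positivity
  have h1 : 4 * |(k : ℝ)| ≤ (b : ℝ) ^ i := by exact_mod_cast h
  rw [abs_div, abs_of_pos hb0, div_le_iff₀ hb0]
  linarith

theorem DKS_large (hO : ST_OM) (b : ℕ) (k : ℤ) (i : ℕ) (hb : 2 ≤ b)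
    (h : 3 * (b : ℤ) ^ i ≤ 4 * |k|) : om ((k : ℝ) / (b : ℝ) ^ i) = 0 := by
  refine hO.2.2.1 _ ?_
  have hb0 : (0 : ℝ) < (b : ℝ) ^ i := by positivity
  have h1 : 3 * (b : ℝ) ^ i ≤ 4 * |(k : ℝ)| := by exact_mod_cast h
  rw [abs_div, abs_of_pos hb0, le_div_iff₀ hb0]
  linarith

theorem st_DKS (hO : ST_OM) : ST_DKS := by
  intro b k hb
  have hbz : (1 : ℤ) ≤ (b : ℤ) := by exact_mod_cast (by omega : 1 ≤ b)
  refine ⟨?_, ?_, ?_, ?_⟩
  · intro j hj J hJ
    obtain ⟨i, rfl⟩ : ∃ i, J = i + 2 := ⟨J - 2, by omega⟩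
    rw [DKS_sum]
    exact DKS_small hO b k i hb (hj.trans (pow_le_pow_right₀ hbz (by omega)))
  · intro j hj
    unfold dkc
    rw [if_neg (by omega), if_neg (by omega)]
    have e1 : j + 2 - 1 = j + 1 := by omega
    have e2 : j + 2 - 2 = j := by omega
    rw [e1, e2, DKS_small hO b k j hb hj,
      DKS_small hO b k (j + 1) hb (hj.trans (pow_le_pow_right₀ hbz (by omega))), sub_self]
  · intro j hj h
    by_contra hc
    push Not at hc
    apply h
    unfold dkc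
    rw [if_neg (by omega)]
    split_ifs with h1
    · subst h1
      have := DKS_large hO b k 0 hb (by simpa using hc)
      simpa using this
    · have h2 : 3 * (b : ℤ) ^ (j - 2) ≤ 4 * |k| := by
        have : (b : ℤ) ^ (j - 2) ≤ (b : ℤ) ^ (j - 1) := pow_le_pow_right₀ hbz (by omega)
        linarith
      rw [DKS_large hO b k (j - 1) hb hc, DKS_large hO b k (j - 2) hb h2, sub_self]
  · intro j hj h
    by_contra hc
    push Not at hc
    apply h
    unfold dkc
    rw [if_neg (by omega), if_neg (by omega), DKS_small hO b k (j - 2) hb hc,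
      DKS_small hO b k (j - 1) hb (hc.trans (pow_le_pow_right₀ hbz (by omega))), sub_self]

end Pool.Agent.Helper37.SU
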