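import Pool.Agent.Helper37.SU.Stmts

open Finset MeasureTheory

namespace Pool.Agent.Helper37.SU

theorem HKI_int (n : ℤ) :
    ∫ x : UnitAddCircle, (fourier n x : ℂ) ∂haar1 = if n = 0 then 1 else 0 := by
  unfold haar1
  split_ifs with h
  · subst h
    simp only [fourier_zero, integral_const]
    simp
  · exact integral_eq_zero_of_add_right_eq_neg (μ := AddCircle.haarAddCircle)
      (fourier_add_half_inv_index h Fact.out)

theorem HKI_add (k : ℤ) (x y : UnitAddCircle) :
    (fourier k (x + y) : ℂ) = fourier k x * fourier k y := by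
  simp only [fourier_apply, smul_add, AddCircle.toCircle_add, Circle.coe_mul]

theorem HKI_neg (k : ℤ) (x : UnitAddCircle) :
    (fourier k (-x) : ℂ) = fourier (-k) x := by
  simp only [fourier_apply, smul_neg, neg_smul]

theorem HKI_pair (k k' : ℤ) (t c : UnitAddCircle) :
    ∫ x : UnitAddCircle, (fourier k (t - x) : ℂ) * fourier k' (x - c) ∂haar1
      = if k = k' then fourier k (t - c) else 0 := by
  have e : ∀ x : UnitAddCircle, (fourier k (t - x) : ℂ) * fourier k' (x - c)
      = (fourier k t * fourier k' (-c)) * fourier (k' - k) x := by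
    intro x
    rw [sub_eq_add_neg t x, HKI_add, sub_eq_add_neg x c, HKI_add, HKI_neg k x,
      sub_eq_add_neg k' k, fourier_add]
    ring
  simp_rw [e]
  rw [integral_const_mul, HKI_int]
  by_cases h : k = k'
  · subst h
    rw [if_pos (sub_self k), if_pos rfl, mul_one, sub_eq_add_neg t c, HKI_add]
  · rw [if_neg (by omega), if_neg h, mul_zero]

theorem st_HKI (hO : ST_OM) : ST_HKI := by
  intro b i i' t c hb
  have hfi : ∀ k k' : ℤ, Integrable
      (fun x : UnitAddCircle => (fourier k (t - x) : ℂ) * fourier k' (x - c)) haar1 := by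
    intro k k'
    have : IsFiniteMeasure haar1 := by unfold haar1; infer_instance
    refine Continuous.integrable_of_hasCompactSupport ?_ ?_
    · exact ((fourier k).continuous.comp (continuous_const.sub continuous_id)).mul
        ((fourier k').continuous.comp (continuous_id.sub continuous_const))
    · exact HasCompactSupport.of_compactSpace _
  have e1 : ∀ x : UnitAddCircle, dk b i (t - x) * ik b i' (x - c)
      = ∑ k ∈ Icc (-((b : ℤ) ^ i)) ((b : ℤ) ^ i), ∑ k' ∈ Icc (-((b : ℤ) ^ i')) ((b : ℤ) ^ i'),
        (((dkc b i k : ℝ) : ℂ) * (((b : ℂ) ^ i')⁻¹ * ((om ((k' : ℝ) / (b : ℝ) ^ i') : ℝ) : ℂ))) *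
          ((fourier k (t - x) : ℂ) * fourier k' (x - c)) := by
    intro x
    unfold dk ik vp
    rw [Finset.mul_sum, Finset.sum_mul_sum]
    refine Finset.sum_congr rfl fun k _ => Finset.sum_congr rfl fun k' _ => ?_
    ring
  simp_rw [e1]
  rw [integral_finsetSum _ fun k _ => integrable_finsetSum _ fun k' _ =>
    (hfi k k').const_mul _]
  unfold hk
  refine Finset.sum_congr rfl fun k _ => ?_
  rw [integral_finsetSum _ fun k' _ => (hfi k k').const_mul _]
  simp_rw [integral_const_mul, HKI_pair]
  by_cases hk : k ∈ Icc (-((b : ℤ) ^ i')) ((b : ℤ) ^ i')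
  · rw [Finset.sum_eq_single k]
    · rw [if_pos rfl]
      push_cast
      ring
    · intro k' _ hkk
      rw [if_neg (Ne.symm hkk), mul_zero]
    · intro h; exact absurd hk h
  · have h0 : om ((k : ℝ) / (b : ℝ) ^ i') = 0 := by
      refine hO.2.2.1 _ ?_
      have hb0 : (0 : ℝ) < (b : ℝ) ^ i' := by
        have : 0 < b := by omega
        positivity
      rw [abs_div, abs_of_pos hb0, le_div_iff₀ hb0]
      have h1 : (b : ℤ) ^ i' < |k| := by
        by_contra hc
        push Not at hc
        exact hk (mem_Icc.2 (abs_le.1 hc))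
      have h2 : (b : ℝ) ^ i' < |(k : ℝ)| := by exact_mod_cast h1
      linarith
    rw [h0]
    simp only [mul_zero, Complex.ofReal_zero, zero_mul]
    refine Finset.sum_eq_zero fun k' hk' => ?_
    rw [if_neg, mul_zero]
    rintro rfl
    exact hk hk'

end Pool.Agent.Helper37.SU
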