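import Pool.Agent.Helper37.SU.Stmts

open Finset

namespace Pool.Agent.Helper37.SU

theorem KER_shift (f : ℤ → ℂ) (M : ℕ) :
    ∑ k ∈ Icc (-(M : ℤ)) (M : ℤ), f (k + 1)
      = ∑ k ∈ Icc (-(M : ℤ)) (M : ℤ), f k + f (M + 1) - f (-(M : ℤ)) := by
  have h1 : ∑ k ∈ Icc (-(M : ℤ)) (M : ℤ), f (k + 1)
      = ∑ k ∈ Icc (-(M : ℤ) + 1) ((M : ℤ) + 1), f k := by
    rw [← Finset.map_add_right_Icc, Finset.sum_map]
    rfl
  have h2 : Icc (-(M : ℤ) + 1) ((M : ℤ) + 1) = insert ((M : ℤ) + 1) (Icc (-(M : ℤ) + 1) (M : ℤ)) := by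
    ext k; simp only [mem_Icc, mem_insert]; omega
  have h3 : Icc (-(M : ℤ)) (M : ℤ) = insert (-(M : ℤ)) (Icc (-(M : ℤ) + 1) (M : ℤ)) := by
    ext k; simp only [mem_Icc, mem_insert]; omega
  rw [h1, h2, h3, Finset.sum_insert (by simp), Finset.sum_insert (by simp)]
  ring

theorem KER_diff (a : ℝ) (Ψ : ℝ → ℂ) (h2 : ContDiff ℝ 2 Ψ)
    (ha2 : ∀ ξ, ‖iteratedDeriv 2 Ψ ξ‖ ≤ a) (x h : ℝ) (hh : 0 ≤ h) :
    ‖Ψ (x + h) - 2 * Ψ x + Ψ (x - h)‖ ≤ 2 * a * h ^ 2 := by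
  have ha : 0 ≤ a := (norm_nonneg _).trans (ha2 0)
  have hd0 : Differentiable ℝ Ψ := h2.differentiable (by norm_num)
  have hd1c : ContDiff ℝ 1 (deriv Ψ) := by
    have h3 : ContDiff ℝ (1 + 1) Ψ := by
      have : (1 + 1 : WithTop ℕ∞) = 2 := by norm_num
      rw [this]; exact h2
    exact (contDiff_succ_iff_deriv.1 h3).2.2
  have hd1 : Differentiable ℝ (deriv Ψ) := hd1c.differentiable (by norm_num)
  have hdd : ∀ ξ, ‖deriv (deriv Ψ) ξ‖ ≤ a := by
    intro ξ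
    have := ha2 ξ
    rwa [iteratedDeriv_succ, iteratedDeriv_one] at this
  have hL : ∀ u v : ℝ, ‖deriv Ψ v - deriv Ψ u‖ ≤ a * ‖v - u‖ := fun u v =>
    Convex.norm_image_sub_le_of_norm_deriv_le (fun ξ _ => hd1 ξ) (fun ξ _ => hdd ξ)
      convex_univ (Set.mem_univ u) (Set.mem_univ v)
  set φ : ℝ → ℂ := fun s => Ψ (x + s) + Ψ (x - s) with hφ
  have hφd : ∀ s, HasDerivAt φ (deriv Ψ (x + s) - deriv Ψ (x - s)) s := by
    intro s
    have e1 : HasDerivAt (fun s => Ψ (x + s)) (deriv Ψ (x + s)) s := by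
      have := (hd0 (x + s)).hasDerivAt
      exact this.comp_const_add x s
    have e2 : HasDerivAt (fun s => Ψ (x - s)) (-deriv Ψ (x - s)) s := by
      have := (hd0 (x - s)).hasDerivAt
      exact this.comp_const_sub x s
    rw [sub_eq_add_neg]
    exact e1.add e2
  have h4 : ‖φ h - φ 0‖ ≤ (2 * a * h) * ‖h - 0‖ := by
    refine Convex.norm_image_sub_le_of_norm_deriv_le (s := Set.Icc 0 h)
      (fun s _ => (hφd s).differentiableAt) ?_ (convex_Icc 0 h) ⟨le_rfl, hh⟩ ⟨hh, le_rfl⟩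
    intro s hs
    rw [(hφd s).deriv]
    refine (hL _ _).trans ?_
    have e : x + s - (x - s) = 2 * s := by ring
    rw [e, Real.norm_eq_abs, abs_of_nonneg (by linarith [hs.1])]
    nlinarith [hs.2, hs.1]
  have e5 : φ h - φ 0 = Ψ (x + h) - 2 * Ψ x + Ψ (x - h) := by
    simp only [hφ, add_zero, sub_zero]; ring
  rw [e5, sub_zero, Real.norm_eq_abs, abs_of_nonneg hh] at h4
  calc _ ≤ _ := h4
    _ = _ := by ring

theorem KER_rep (t : UnitAddCircle) : ∃ u : ℝ, (u : UnitAddCircle) = t ∧ |u| = ‖t‖ ∧ |u| ≤ 1 / 2 := by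
  induction t using QuotientAddGroup.induction_on with
  | H x =>
    refine ⟨x - round x, ?_, ?_, abs_sub_round x⟩
    · have : ((x - round x : ℝ) : UnitAddCircle) = (x : UnitAddCircle) := by
        rw [AddCircle.coe_sub]
        have h : ((round x : ℝ) : UnitAddCircle) = 0 := by
          rw [AddCircle.coe_eq_zero_iff]
          exact ⟨round x, by simp⟩
        rw [h, sub_zero]
      exact this
    · exact (UnitAddCircle.norm_eq (x := x)).symm

theorem KER_low (t : UnitAddCircle) :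
    16 * ‖t‖ ^ 2 ≤ ‖(fourier 1 t : ℂ) - 2 + fourier (-1) t‖ := by
  obtain ⟨u, rfl, hu, hu2⟩ := KER_rep t
  rw [← hu]
  set z : ℂ := fourier 1 (u : UnitAddCircle) with hz
  have hz1 : z = Complex.exp (Complex.I * ((2 * Real.pi * u : ℝ) : ℂ)) := by
    rw [hz, fourier_coe_apply]
    congr 1
    push_cast
    ring
  have hzi : (fourier (-1) (u : UnitAddCircle) : ℂ) = z⁻¹ := by
    rw [hz, fourier_coe_apply, fourier_coe_apply, ← Complex.exp_neg]
    congr 1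
    push_cast
    ring
  have hz0 : z ≠ 0 := by rw [hz1]; exact Complex.exp_ne_zero _
  have hzn : ‖z‖ = 1 := by
    rw [hz1, mul_comm, Complex.norm_exp_ofReal_mul_I]
  have e1 : z - 2 + z⁻¹ = (z - 1) ^ 2 / z := by
    field_simp; ring
  rw [hzi, e1, norm_div, hzn, div_one, norm_pow]
  have e2 : ‖z - 1‖ = 2 * |Real.sin (Real.pi * u)| := by
    rw [hz1, Complex.norm_exp_I_mul_ofReal_sub_one, Real.norm_eq_abs, abs_mul]
    congr 1
    · norm_num
    · congr 2; ring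
  have e3 : 2 * |u| ≤ |Real.sin (Real.pi * u)| := by
    have h1 := Real.mul_le_sin (x := Real.pi * |u|) (by positivity)
      (by nlinarith [Real.pi_pos])
    have h2 : 2 / Real.pi * (Real.pi * |u|) = 2 * |u| := by
      field_simp
    rw [h2] at h1
    refine h1.trans ?_
    rcases abs_choice u with h | h
    · rw [h]; exact le_abs_self _
    · rw [h, mul_neg, Real.sin_neg]; exact neg_le_abs _
  rw [e2]
  nlinarith [abs_nonneg u, e3, abs_nonneg (Real.sin (Real.pi * u))]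

theorem KER_second (a : ℝ) (Ψ : ℝ → ℂ) (h2 : ContDiff ℝ 2 Ψ) (h0 : ∀ ξ, 1 ≤ |ξ| → Ψ ξ = 0)
    (ha2 : ∀ ξ, ‖iteratedDeriv 2 Ψ ξ‖ ≤ a) (M : ℕ) (t : UnitAddCircle) (hM : 1 ≤ M) :
    16 * ‖t‖ ^ 2 * ‖∑ k ∈ Icc (-(M : ℤ)) (M : ℤ), Ψ ((k : ℝ) / M) * (fourier k t : ℂ)‖
      ≤ 6 * a / M := by
  have ha : 0 ≤ a := (norm_nonneg _).trans (ha2 0)
  have hMr : (1 : ℝ) ≤ M := by exact_mod_cast hM
  have hMp : (0 : ℝ) < M := by linarith
  set g : ℤ → ℂ := fun k => Ψ ((k : ℝ) / M) with hg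
  have hg0 : ∀ k : ℤ, (M : ℤ) ≤ |k| → g k = 0 := by
    intro k hk
    refine h0 _ ?_
    rw [abs_div, abs_of_pos hMp, le_div_iff₀ hMp, one_mul]
    exact_mod_cast hk
  set K : ℂ := ∑ k ∈ Icc (-(M : ℤ)) (M : ℤ), g k * (fourier k t : ℂ) with hK
  have hfa : ∀ m k : ℤ, (fourier m t : ℂ) * fourier k t = fourier (k + m) t := by
    intro m k
    rw [add_comm k m, fourier_add]
  have e1 : (fourier 1 t : ℂ) * K = ∑ k ∈ Icc (-(M : ℤ)) (M : ℤ), g (k - 1) * (fourier k t : ℂ) := by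
    have h1 := KER_shift (fun k => g (k - 1) * (fourier k t : ℂ)) M
    simp only [add_sub_cancel_right] at h1
    rw [hg0 M (by simp), hg0 (-(M : ℤ) - 1) (by rw [abs_of_neg (by omega)]; omega), zero_mul,
      zero_mul, add_zero, sub_zero] at h1
    rw [← h1, hK, Finset.mul_sum]
    refine Finset.sum_congr rfl fun k _ => ?_
    rw [mul_left_comm, hfa 1 k]
  have e2 : (fourier (-1) t : ℂ) * K
      = ∑ k ∈ Icc (-(M : ℤ)) (M : ℤ), g (k + 1) * (fourier k t : ℂ) := by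
    have h1 := KER_shift (fun k => g k * (fourier (k - 1) t : ℂ)) M
    simp only [add_sub_cancel_right] at h1
    rw [hg0 (M + 1) (by rw [abs_of_nonneg (by omega)]; omega), hg0 (-(M : ℤ)) (by simp), zero_mul,
      zero_mul, add_zero, sub_zero] at h1
    rw [h1, hK, Finset.mul_sum]
    refine Finset.sum_congr rfl fun k _ => ?_
    rw [mul_left_comm, hfa (-1) k, sub_eq_add_neg]
  have e3 : ((fourier 1 t : ℂ) - 2 + fourier (-1) t) * K
      = ∑ k ∈ Icc (-(M : ℤ)) (M : ℤ), (g (k + 1) - 2 * g k + g (k - 1)) * (fourier k t : ℂ) := by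
    have : ((fourier 1 t : ℂ) - 2 + fourier (-1) t) * K
        = (fourier (-1) t : ℂ) * K - 2 * K + (fourier 1 t : ℂ) * K := by ring
    rw [this, e1, e2, hK, Finset.mul_sum, ← Finset.sum_sub_distrib, ← Finset.sum_add_distrib]
    refine Finset.sum_congr rfl fun k _ => ?_
    ring
  have hfn : ∀ k : ℤ, ‖(fourier k t : ℂ)‖ = 1 := fun k => by
    rw [fourier_apply]; exact Circle.norm_coe _
  have e4 : ‖((fourier 1 t : ℂ) - 2 + fourier (-1) t) * K‖ ≤ 6 * a / M := by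
    rw [e3]
    refine (norm_sum_le _ _).trans ?_
    have h5 : ∀ k ∈ Icc (-(M : ℤ)) (M : ℤ),
        ‖(g (k + 1) - 2 * g k + g (k - 1)) * (fourier k t : ℂ)‖ ≤ 2 * a * (1 / M) ^ 2 := by
      intro k _
      rw [norm_mul, hfn, mul_one]
      have h6 := KER_diff a Ψ h2 ha2 ((k : ℝ) / M) (1 / M) (by positivity)
      have h7 : ((k + 1 : ℤ) : ℝ) / M = (k : ℝ) / M + 1 / M := by push_cast; ring
      have h8 : ((k - 1 : ℤ) : ℝ) / M = (k : ℝ) / M - 1 / M := by push_cast; ring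
      simp only [hg, h7, h8]
      exact h6
    refine (Finset.sum_le_card_nsmul _ _ _ h5).trans ?_
    rw [nsmul_eq_mul, Int.card_Icc]
    have h9 : (((M : ℤ) + 1 - -(M : ℤ)).toNat : ℝ) = 2 * M + 1 := by
      have : ((M : ℤ) + 1 - -(M : ℤ)).toNat = 2 * M + 1 := by omega
      rw [this]; push_cast; ring
    rw [h9]
    have h10 : (2 * (M : ℝ) + 1) * (2 * a * (1 / M) ^ 2) = (2 * (M : ℝ) + 1) / M * (2 * a / M) := by
      field_simp
    rw [h10]
    have h11 : (2 * (M : ℝ) + 1) / M ≤ 3 := by rw [div_le_iff₀ hMp]; linarith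
    calc _ ≤ 3 * (2 * a / M) := mul_le_mul_of_nonneg_right h11 (by positivity)
      _ = _ := by ring
  rw [norm_mul] at e4
  exact (mul_le_mul_of_nonneg_right (KER_low t) (norm_nonneg _)).trans e4

theorem KER_triv (a : ℝ) (Ψ : ℝ → ℂ) (ha1 : ∀ ξ, ‖Ψ ξ‖ ≤ a) (M : ℕ) (t : UnitAddCircle)
    (hM : 1 ≤ M) :
    ‖∑ k ∈ Icc (-(M : ℤ)) (M : ℤ), Ψ ((k : ℝ) / M) * (fourier k t : ℂ)‖ ≤ 3 * a * M := by
  have ha : 0 ≤ a := (norm_nonneg _).trans (ha1 0)
  have hMr : (1 : ℝ) ≤ M := by exact_mod_cast hM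
  have hfn : ∀ k : ℤ, ‖(fourier k t : ℂ)‖ = 1 := fun k => by
    rw [fourier_apply]; exact Circle.norm_coe _
  refine (norm_sum_le _ _).trans ?_
  refine (Finset.sum_le_card_nsmul _ _ a fun k _ => ?_).trans ?_
  · rw [norm_mul, hfn, mul_one]; exact ha1 _
  · rw [nsmul_eq_mul, Int.card_Icc]
    have h9 : (((M : ℤ) + 1 - -(M : ℤ)).toNat : ℝ) = 2 * M + 1 := by
      have : ((M : ℤ) + 1 - -(M : ℤ)).toNat = 2 * M + 1 := by omega
      rw [this]; push_cast; ring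
    rw [h9]
    nlinarith

theorem st_KER : ST_KER := by
  refine ⟨12, by norm_num, ?_⟩
  intro a Ψ h2 h0 ha1 ha2 M t hM
  have ha : 0 ≤ a := (norm_nonneg _).trans (ha1 0)
  have hMr : (1 : ℝ) ≤ M := by exact_mod_cast hM
  have hMp : (0 : ℝ) < M := by linarith
  set N := ‖∑ k ∈ Icc (-(M : ℤ)) (M : ℤ), Ψ ((k : ℝ) / M) * (fourier k t : ℂ)‖ with hN
  have h3 := KER_triv a Ψ ha1 M t hM
  have h4 := KER_second a Ψ h2 h0 ha2 M t hM
  rw [← hN] at h3 h4
  have ht : 0 ≤ ‖t‖ := norm_nonneg _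
  set x := ‖t‖ with hx
  rw [← div_eq_mul_inv, le_div_iff₀ (by positivity)]
  rcases le_or_gt ((M : ℝ) * x) 1 with h | h
  · have h5 : (1 + (M : ℝ) * x) ^ 2 ≤ 4 := by
      have : 0 ≤ (M : ℝ) * x := by positivity
      nlinarith
    calc N * (1 + (M : ℝ) * x) ^ 2 ≤ (3 * a * M) * 4 :=
          mul_le_mul h3 h5 (by positivity) (by positivity)
      _ = _ := by ring
  · have h5 : (1 + (M : ℝ) * x) ^ 2 ≤ 4 * ((M : ℝ) * x) ^ 2 := by nlinarith
    have hN0 : 0 ≤ N := norm_nonneg _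
    have h6 : 16 * x ^ 2 * N * M ≤ 6 * a := by
      rwa [le_div_iff₀ hMp] at h4
    calc N * (1 + (M : ℝ) * x) ^ 2 ≤ N * (4 * ((M : ℝ) * x) ^ 2) :=
          mul_le_mul_of_nonneg_left h5 hN0
      _ = (16 * x ^ 2 * N * M) * (M / 4) := by ring
      _ ≤ 6 * a * (M / 4) := mul_le_mul_of_nonneg_right h6 (by positivity)
      _ ≤ 12 * a * M := by nlinarith [mul_nonneg ha hMp.le]

end Pool.Agent.Helper37.SU
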