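import Pool.Agent.Helper37.SU.Stmts

open Finset

namespace Pool.Agent.Helper37.SU

theorem KLP_bdd (Ψ : ℝ → ℂ) (h2 : ContDiff ℝ 2 Ψ) (h0 : ∀ ξ, 1 ≤ |ξ| → Ψ ξ = 0) :
    ∃ a : ℝ, (∀ ξ, ‖Ψ ξ‖ ≤ a) ∧ ∀ ξ, ‖iteratedDeriv 2 Ψ ξ‖ ≤ a := by
  have hc : HasCompactSupport Ψ := by
    refine HasCompactSupport.intro (isCompact_Icc (a := (-1 : ℝ)) (b := 1)) fun x hx => h0 x ?_
    rw [Set.mem_Icc, ← abs_le] at hx
    exact (not_le.1 hx).le
  have hc2 : HasCompactSupport (iteratedDeriv 2 Ψ) := by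
    rw [iteratedDeriv_succ, iteratedDeriv_one]
    exact hc.deriv.deriv
  have hcont2 : Continuous (iteratedDeriv 2 Ψ) := h2.continuous_iteratedDeriv 2 le_rfl
  obtain ⟨a1, h3⟩ := hc.exists_bound_of_continuous h2.continuous
  obtain ⟨a2, h4⟩ := hc2.exists_bound_of_continuous hcont2
  exact ⟨max a1 a2, fun ξ => (h3 ξ).trans (le_max_left _ _), fun ξ => (h4 ξ).trans (le_max_right _ _)⟩

theorem KLP_rep (t : UnitAddCircle) : ∃ u : ℝ, (u : UnitAddCircle) = t ∧ |u| = ‖t‖ := by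
  induction t using QuotientAddGroup.induction_on with
  | H x =>
    refine ⟨x - round x, ?_, ?_⟩
    · have : ((x - round x : ℝ) : UnitAddCircle) = (x : UnitAddCircle) := by
        rw [AddCircle.coe_sub]
        have h : ((round x : ℝ) : UnitAddCircle) = 0 := by
          rw [AddCircle.coe_eq_zero_iff]
          exact ⟨round x, by simp⟩
        rw [h, sub_zero]
      exact this
    · exact (UnitAddCircle.norm_eq (x := x)).symm

theorem KLP_nle (x : ℝ) : ‖(x : UnitAddCircle)‖ ≤ |x| := by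
  rw [UnitAddCircle.norm_eq]
  have := round_le x 0
  simpa using this

theorem st_KLP (hK : ST_KER) : ST_KLP := by
  intro Ψ h2 h0
  obtain ⟨C0, hC0, hK⟩ := hK
  obtain ⟨a, ha1, ha2⟩ := KLP_bdd Ψ h2 h0
  set Ψ1 : ℝ → ℂ := fun ξ => (ξ : ℂ) * Ψ ξ with hΨ1
  have h21 : ContDiff ℝ 2 Ψ1 := by
    refine ContDiff.mul ?_ h2
    exact Complex.ofRealCLM.contDiff
  have h01 : ∀ ξ, 1 ≤ |ξ| → Ψ1 ξ = 0 := fun ξ hξ => by simp [hΨ1, h0 ξ hξ]
  obtain ⟨b, hb1, hb2⟩ := KLP_bdd Ψ1 h21 h01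
  have ha : 0 ≤ a := (norm_nonneg _).trans (ha1 0)
  have hb : 0 ≤ b := (norm_nonneg _).trans (hb1 0)
  refine ⟨C0 * a + 8 * Real.pi * (C0 * b) + 1, by positivity, ?_⟩
  intro M t t' hM
  have hMr : (1 : ℝ) ≤ M := by exact_mod_cast hM
  have hMp : (0 : ℝ) < M := by linarith
  have hev : ∀ s : UnitAddCircle, 0 < ((1 + M * ‖s‖) ^ 2)⁻¹ := fun s => by positivity
  set K : UnitAddCircle → ℂ := fun s =>
    ∑ k ∈ Icc (-(M : ℤ)) (M : ℤ), Ψ ((k : ℝ) / M) * (fourier k s : ℂ) with hKd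
  have hKb : ∀ s, ‖K s‖ ≤ C0 * a * M * ((1 + M * ‖s‖) ^ 2)⁻¹ := fun s =>
    hK a Ψ h2 h0 ha1 ha2 M s hM
  have hp8 : 0 ≤ 8 * Real.pi * (C0 * b) := by positivity
  constructor
  · refine (hKb t).trans ?_
    refine mul_le_mul_of_nonneg_right (mul_le_mul_of_nonneg_right ?_ hMp.le) (hev t).le
    linarith
  · show ‖K t - K t'‖ ≤ _
    have hCM : ∀ X : ℝ, 0 ≤ X → C0 * a * X ≤ (C0 * a + 8 * Real.pi * (C0 * b) + 1) * X := by
      intro X hX; nlinarith
    have hCM2 : ∀ X : ℝ, 0 ≤ X → 8 * Real.pi * (C0 * b) * X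
        ≤ (C0 * a + 8 * Real.pi * (C0 * b) + 1) * X := by
      intro X hX; nlinarith [mul_nonneg hC0.le ha]
    rcases le_or_gt ((M : ℝ) * ‖t - t'‖) 1 with hs | hs
    · obtain ⟨u, hu, -⟩ := KLP_rep t
      obtain ⟨δ, hδ, hδn⟩ := KLP_rep (t' - t)
      have hu' : ((u + δ : ℝ) : UnitAddCircle) = t' := by
        rw [AddCircle.coe_add, hu, hδ]; abel
      have hδn' : |δ| = ‖t - t'‖ := by rw [hδn, norm_sub_rev]
      set F : ℝ → ℂ := fun v => K (v : UnitAddCircle) with hF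
      have hFd : ∀ v : ℝ, HasDerivAt F (2 * Real.pi * Complex.I * M *
          ∑ k ∈ Icc (-(M : ℤ)) (M : ℤ), Ψ1 ((k : ℝ) / M) * (fourier k (v : UnitAddCircle) : ℂ))
          v := by
        intro v
        have h3 : HasDerivAt F (∑ k ∈ Icc (-(M : ℤ)) (M : ℤ), Ψ ((k : ℝ) / M) *
            (2 * Real.pi * Complex.I * k / (1 : ℝ) * fourier k (v : UnitAddCircle))) v := by
          refine HasDerivAt.fun_sum fun k _ => ?_
          exact (hasDerivAt_fourier (1 : ℝ) k v).const_mul _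
        convert h3 using 1
        rw [Finset.mul_sum]
        refine Finset.sum_congr rfl fun k _ => ?_
        simp only [hΨ1]
        push_cast
        have : (M : ℂ) ≠ 0 := by exact_mod_cast hMp.ne'
        field_simp
      have hmv : ‖F (u + δ) - F u‖ ≤ (2 * Real.pi * M * (C0 * b * M *
          (4 * ((1 + M * ‖t‖) ^ 2)⁻¹))) * ‖(u + δ) - u‖ := by
        refine Convex.norm_image_sub_le_of_norm_deriv_le (s := segment ℝ u (u + δ))
          (fun v _ => (hFd v).differentiableAt) ?_ (convex_segment _ _)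
          (left_mem_segment _ _ _) (right_mem_segment _ _ _)
        intro v hv
        rw [(hFd v).deriv, norm_mul]
        have e1 : ‖(2 * Real.pi * Complex.I * M : ℂ)‖ = 2 * Real.pi * M := by
          rw [norm_mul, norm_mul, norm_mul, Complex.norm_I, Complex.norm_real, Complex.norm_natCast,
            Real.norm_eq_abs, abs_of_pos Real.pi_pos]
          norm_num
        rw [e1]
        refine mul_le_mul_of_nonneg_left ?_ (by positivity)
        refine (hK b Ψ1 h21 h01 hb1 hb2 M v hM).trans ?_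
        refine mul_le_mul_of_nonneg_left ?_ (by positivity)
        have hvd : ‖t - (v : UnitAddCircle)‖ ≤ |δ| := by
          rw [← hu, ← AddCircle.coe_sub]
          refine (KLP_nle _).trans ?_
          obtain ⟨p, q, hp, hq, hpq, rfl⟩ := hv
          have e : u - (p • u + q • (u + δ)) = -(q * δ) := by
            simp only [smul_eq_mul]
            have : p = 1 - q := by linarith
            rw [this]; ring
          rw [e, abs_neg, abs_mul, abs_of_nonneg hq]
          have hq1 : q ≤ 1 := by linarith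
          exact mul_le_of_le_one_left (abs_nonneg _) hq1
        have h5 : M * ‖t‖ ≤ M * ‖(v : UnitAddCircle)‖ + 1 := by
          have h6 : ‖t‖ ≤ ‖(v : UnitAddCircle)‖ + ‖t - (v : UnitAddCircle)‖ := by
            have := norm_add_le (v : UnitAddCircle) (t - v)
            simpa using this
          have h7 : M * ‖t - (v : UnitAddCircle)‖ ≤ 1 := by
            refine (mul_le_mul_of_nonneg_left hvd hMp.le).trans ?_
            rw [hδn']; exact hs
          have h8 := mul_le_mul_of_nonneg_left h6 hMp.le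
          rw [mul_add] at h8
          linarith
        have hvn : 0 ≤ ‖(v : UnitAddCircle)‖ := norm_nonneg _
        have hMv : 0 ≤ M * ‖(v : UnitAddCircle)‖ := by positivity
        have h9 : (1 + M * ‖t‖) ^ 2 ≤ 4 * (1 + M * ‖(v : UnitAddCircle)‖) ^ 2 := by
          have h10 : 0 ≤ 1 + M * ‖t‖ := by positivity
          nlinarith
        rw [← div_eq_mul_inv, inv_eq_one_div, div_le_div_iff₀ (by positivity) (by positivity),
          one_mul]
        exact h9
      have e2 : F u = K t := by simp only [hF, hu]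
      have e3 : F (u + δ) = K t' := by simp only [hF, hu']
      rw [e2, e3, norm_sub_rev, add_sub_cancel_left, Real.norm_eq_abs, hδn'] at hmv
      refine hmv.trans ?_
      have h11 : ((1 + M * ‖t‖) ^ 2)⁻¹ ≤ ((1 + M * ‖t‖) ^ 2)⁻¹ + ((1 + M * ‖t'‖) ^ 2)⁻¹ := by
        linarith [(hev t').le]
      calc 2 * Real.pi * M * (C0 * b * M * (4 * ((1 + M * ‖t‖) ^ 2)⁻¹)) * ‖t - t'‖
          = 8 * Real.pi * (C0 * b) * (M ^ 2 * ‖t - t'‖ * ((1 + M * ‖t‖) ^ 2)⁻¹) := by ring
        _ ≤ 8 * Real.pi * (C0 * b) * (M ^ 2 * ‖t - t'‖ *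
              (((1 + M * ‖t‖) ^ 2)⁻¹ + ((1 + M * ‖t'‖) ^ 2)⁻¹)) := by
            refine mul_le_mul_of_nonneg_left (mul_le_mul_of_nonneg_left h11 (by positivity)) hp8
        _ ≤ _ := hCM2 _ (by have := (hev t).le; have := (hev t').le; positivity)
        _ = _ := by ring
    · refine (norm_sub_le _ _).trans ((add_le_add (hKb t) (hKb t')).trans ?_)
      calc C0 * a * M * ((1 + M * ‖t‖) ^ 2)⁻¹ + C0 * a * M * ((1 + M * ‖t'‖) ^ 2)⁻¹
          = C0 * a * (M * (((1 + M * ‖t‖) ^ 2)⁻¹ + ((1 + M * ‖t'‖) ^ 2)⁻¹) * 1) := by ring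
        _ ≤ C0 * a * (M * (((1 + M * ‖t‖) ^ 2)⁻¹ + ((1 + M * ‖t'‖) ^ 2)⁻¹) * (M * ‖t - t'‖)) := by
            refine mul_le_mul_of_nonneg_left (mul_le_mul_of_nonneg_left hs.le ?_) (by positivity)
            have := (hev t).le; have := (hev t').le; positivity
        _ ≤ _ := hCM _ (by have := (hev t).le; have := (hev t').le; positivity)
        _ = _ := by ring

end Pool.Agent.Helper37.SU
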