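import Pool.Agent.Helper37.SU.Stmts

open Finset

namespace Pool.Agent.Helper37.SU

theorem st_OM : ST_OM := by
  refine ⟨?_, ?_, ?_, ?_, ?_⟩
  · unfold om
    exact (Real.smoothTransition.contDiff.comp (by fun_prop)).mul
      (Real.smoothTransition.contDiff.comp (by fun_prop))
  · intro ξ h
    rw [abs_le] at h
    unfold om
    rw [Real.smoothTransition.one_of_one_le (by linarith),
      Real.smoothTransition.one_of_one_le (by linarith), one_mul]
  · intro ξ h
    unfold om
    rcases le_abs.1 h with h | h
    · rw [Real.smoothTransition.zero_of_nonpos (x := 3 / 2 - 2 * ξ) (by linarith), zero_mul]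
    · rw [Real.smoothTransition.zero_of_nonpos (x := 3 / 2 + 2 * ξ) (by linarith), mul_zero]
  · intro ξ
    unfold om
    exact ⟨mul_nonneg (Real.smoothTransition.nonneg _) (Real.smoothTransition.nonneg _),
      mul_le_one₀ (Real.smoothTransition.le_one _) (Real.smoothTransition.nonneg _)
        (Real.smoothTransition.le_one _)⟩
  · intro ξ
    unfold om
    rw [mul_comm]
    ring_nf

end Pool.Agent.Helper37.SU
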