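import Pool.Agent.Helper37.SU.Stmts

open Finset

namespace Pool.Agent.Helper37.SU

theorem st_VPB (hO : ST_OM) (hL : ST_KLP) : ST_VPB := by
  obtain ⟨hO1, hO2, hO3, hO4, hO5⟩ := hO
  intro b hb
  have hbr : (2 : ℝ) ≤ b := by exact_mod_cast hb
  have hb0 : (0 : ℝ) < b := by linarith
  have hom2 : ContDiff ℝ 2 om := contDiff_infty.1 hO1 2
  -- the two multipliers
  obtain ⟨C1, hC1, hK1⟩ := hL (fun ξ => ((om ξ : ℝ) : ℂ))
    (Complex.ofRealCLM.contDiff.comp hom2)
    (fun ξ hξ => by rw [hO3 ξ (by linarith)]; simp)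
  obtain ⟨C2, hC2, hK2⟩ := hL (fun ξ => ((om ((b : ℝ) * ξ) - om ((b : ℝ) ^ 2 * ξ) : ℝ) : ℂ))
    (Complex.ofRealCLM.contDiff.comp
      ((hom2.comp (contDiff_const.mul contDiff_id)).sub
        (hom2.comp (contDiff_const.mul contDiff_id))))
    (fun ξ hξ => by
      rw [hO3 ((b : ℝ) * ξ), hO3 ((b : ℝ) ^ 2 * ξ)]
      · simp
      · rw [abs_mul, abs_of_pos (by positivity)]; nlinarith
      · rw [abs_mul, abs_of_pos hb0]; nlinarith)
  have hM1 : ∀ j : ℕ, 1 ≤ b ^ j := fun j => Nat.one_le_pow _ _ (by omega)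
  have hevp : ∀ (j : ℕ) (t : UnitAddCircle), 0 < ev b j t := fun j t => by
    unfold ev; have := norm_nonneg t; positivity
  refine ⟨C1 + C2 + (1 + b) ^ 2, by positivity, ?_⟩
  intro j t t'
  have hbj : (0 : ℝ) < (b : ℝ) ^ j := by positivity
  have hCa : ∀ X : ℝ, 0 ≤ X → C1 * X ≤ (C1 + C2 + (1 + b) ^ 2) * X := fun X hX => by
    nlinarith [mul_nonneg hC2.le hX, mul_nonneg (sq_nonneg (1 + (b : ℝ))) hX]
  have hCb : ∀ X : ℝ, 0 ≤ X → C2 * X ≤ (C1 + C2 + (1 + b) ^ 2) * X := fun X hX => by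
    nlinarith [mul_nonneg hC1.le hX, mul_nonneg (sq_nonneg (1 + (b : ℝ))) hX]
  have hevt := hevp j t
  have hevt' := hevp j t'
  -- vp
  have hv1 := (hK1 (b ^ j) t t' (hM1 j))
  push_cast at hv1
  have hvt : ∀ s, vp b j s = ∑ k ∈ Icc (-((b : ℤ) ^ j)) ((b : ℤ) ^ j),
      ((om ((k : ℝ) / (b : ℝ) ^ j) : ℝ) : ℂ) * fourier k s := fun s => rfl
  have hvp1 : ‖vp b j t‖ ≤ C1 * (b : ℝ) ^ j * ev b j t := hv1.1
  have hvp2 : ‖vp b j t - vp b j t'‖
      ≤ C1 * ((b : ℝ) ^ j) ^ 2 * ‖t - t'‖ * (ev b j t + ev b j t') := hv1.2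
  have hvp3 : ‖vp b j t‖ ≤ (C1 + C2 + (1 + b) ^ 2) * (b : ℝ) ^ j * ev b j t := by
    refine hvp1.trans ?_
    have := hCa ((b : ℝ) ^ j * ev b j t) (by positivity)
    linarith [this]
  have hvp4 : ‖vp b j t - vp b j t'‖
      ≤ (C1 + C2 + (1 + b) ^ 2) * ((b : ℝ) ^ j) ^ 2 * ‖t - t'‖ * (ev b j t + ev b j t') := by
    refine hvp2.trans ?_
    have := hCa (((b : ℝ) ^ j) ^ 2 * ‖t - t'‖ * (ev b j t + ev b j t')) (by positivity)
    linarith [this]
  have hpos : 0 ≤ (C1 + C2 + (1 + b) ^ 2) * (b : ℝ) ^ j * ev b j t := by positivity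
  have hpos2 : 0 ≤ (C1 + C2 + (1 + b) ^ 2) * ((b : ℝ) ^ j) ^ 2 * ‖t - t'‖
    * (ev b j t + ev b j t') := by positivity
  -- dk
  have hdk : ‖dk b j t‖ ≤ (C1 + C2 + (1 + b) ^ 2) * (b : ℝ) ^ j * ev b j t ∧
      ‖dk b j t - dk b j t'‖ ≤ (C1 + C2 + (1 + b) ^ 2) * ((b : ℝ) ^ j) ^ 2 * ‖t - t'‖
        * (ev b j t + ev b j t') := by
    rcases Nat.lt_or_ge j 2 with hj | hj
    · rcases Nat.lt_or_ge j 1 with hj0 | hj1
      · have hj' : j = 0 := by omega
        subst hj'
        have h0 : ∀ s, dk b 0 s = 0 := fun s => by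
          unfold dk dkc
          simp
        rw [h0, h0, sub_self, norm_zero]
        exact ⟨hpos, hpos2⟩
      · have hj' : j = 1 := by omega
        subst hj'
        have h1 : ∀ s, dk b 1 s = 1 := fun s => by
          unfold dk
          rw [Finset.sum_eq_single (0 : ℤ)]
          · unfold dkc
            simp only [one_ne_zero, if_false, if_true, Int.cast_zero, fourier_zero, mul_one]
            rw [hO2 0 (by norm_num)]
            simp
          · intro k _ hk
            unfold dkc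
            simp only [one_ne_zero, if_false, if_true]
            rw [hO3 (k : ℝ)]
            · simp
            · have h2 : (1 : ℤ) ≤ |k| := Int.one_le_abs hk
              have h3 : (1 : ℝ) ≤ |(k : ℝ)| := by exact_mod_cast h2
              linarith
          · intro h
            exfalso
            apply h
            rw [mem_Icc]
            constructor
            · simp
            · simp
        rw [h1, h1, sub_self, norm_zero, norm_one]
        refine ⟨?_, hpos2⟩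
        have hn : ‖t‖ ≤ 1 / 2 := by
          have := AddCircle.norm_le_half_period (1 : ℝ) (x := t) one_ne_zero
          simpa using this
        have hn0 := norm_nonneg t
        unfold ev
        rw [← div_eq_mul_inv, le_div_iff₀ (by positivity), one_mul, pow_one]
        have h4 : (b : ℝ) * ‖t‖ ≤ b := by nlinarith
        have h40 : 0 ≤ (b : ℝ) * ‖t‖ := by positivity
        have h5 : (1 + (b : ℝ) * ‖t‖) ^ 2 ≤ (1 + b) ^ 2 := by nlinarith
        have h6 : (1 + (b : ℝ)) ^ 2 * 1 ≤ (1 + (b : ℝ)) ^ 2 * b :=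
          mul_le_mul_of_nonneg_left (by linarith) (by positivity)
        nlinarith [mul_pos hC1 hb0, mul_pos hC2 hb0]
    · have hv2 := (hK2 (b ^ j) t t' (hM1 j))
      push_cast at hv2
      have hdt : ∀ s, dk b j s = ∑ k ∈ Icc (-((b : ℤ) ^ j)) ((b : ℤ) ^ j),
          (((om ((b : ℝ) * ((k : ℝ) / (b : ℝ) ^ j)) : ℝ) : ℂ)
            - ((om ((b : ℝ) ^ 2 * ((k : ℝ) / (b : ℝ) ^ j)) : ℝ) : ℂ)) * fourier k s := by
        intro s
        unfold dk
        refine Finset.sum_congr rfl fun k _ => ?_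
        congr 1
        unfold dkc
        rw [if_neg (by omega), if_neg (by omega)]
        have e1 : (k : ℝ) / (b : ℝ) ^ (j - 1) = (b : ℝ) * ((k : ℝ) / (b : ℝ) ^ j) := by
          obtain ⟨i, rfl⟩ : ∃ i, j = i + 2 := ⟨j - 2, by omega⟩
          have : i + 2 - 1 = i + 1 := by omega
          rw [this, pow_succ (b : ℝ) (i + 1)]
          field_simp
        have e2 : (k : ℝ) / (b : ℝ) ^ (j - 2) = (b : ℝ) ^ 2 * ((k : ℝ) / (b : ℝ) ^ j) := by
          obtain ⟨i, rfl⟩ : ∃ i, j = i + 2 := ⟨j - 2, by omega⟩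
          have : i + 2 - 2 = i := by omega
          rw [this, pow_add]
          field_simp
        rw [e1, e2]
        push_cast
        ring
      have hd1 : ‖dk b j t‖ ≤ C2 * (b : ℝ) ^ j * ev b j t := by rw [hdt]; exact hv2.1
      have hd2 : ‖dk b j t - dk b j t'‖
          ≤ C2 * ((b : ℝ) ^ j) ^ 2 * ‖t - t'‖ * (ev b j t + ev b j t') := by
        rw [hdt, hdt]; exact hv2.2
      constructor
      · refine hd1.trans ?_
        have := hCb ((b : ℝ) ^ j * ev b j t) (by positivity)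
        linarith [this]
      · refine hd2.trans ?_
        have := hCb (((b : ℝ) ^ j) ^ 2 * ‖t - t'‖ * (ev b j t + ev b j t')) (by positivity)
        linarith [this]
  exact ⟨hvp3, hdk.1, hvp4, hdk.2⟩

end Pool.Agent.Helper37.SU
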